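import Mathlib
import Pool.Agent.H96MB.Defs
import Pool.Agent.H93RF.RF

set_option autoImplicit false

/-!
Separation: a sum of translates in `Z[T x I]` which can be solved modulo all finite quotients can be
solved modulo `S`.
-/

namespace Pool.Agent.H90Sep

open Pool.Agent.H96MB Filter

variable {T ι : Type*} [AddCommGroup T]

open Classical in
/-- the coefficient of the image of `shift s f` at `(y + K, j)` -/
noncomputable def cf (K : AddSubgroup T) (s : T) (f : T × ι →₀ ℤ) (y : T) (j : ι) : ℤ :=
  ∑ w ∈ f.support, if s + w.1 - y ∈ K ∧ w.2 = j then f w else 0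

theorem push_shift_apply (K : AddSubgroup T) (s : T) (f : T × ι →₀ ℤ) (y : T) (j : ι) :
    push K (shift s f) ((QuotientAddGroup.mk y : T ⧸ K), j) = cf K s f y j := by
  classical
  unfold push shift cf
  simp only [Finsupp.mapDomain.addMonoidHom_apply]
  rw [← Finsupp.mapDomain_comp, Finsupp.mapDomain, Finsupp.sum_apply, Finsupp.sum]
  apply Finset.sum_congr rfl
  intro w _
  rw [Finsupp.single_apply]
  simp only [Function.comp, Prod.mk.injEq, QuotientAddGroup.eq]
  by_cases h : s + w.1 - y ∈ K ∧ w.2 = j
  · rw [if_pos h, if_pos]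
    refine ⟨?_, h.2⟩
    have := K.neg_mem h.1
    convert this using 1
    abel
  · rw [if_neg h, if_neg]
    rintro ⟨h1, h2⟩
    apply h
    refine ⟨?_, h2⟩
    have := K.neg_mem h1
    convert this using 1
    abel

/-- members of `comb us` are sums of translates -/
theorem mem_comb_iff (us : List (T × ι →₀ ℤ)) (c : T × ι →₀ ℤ) :
    c ∈ comb us ↔ ∃ s : Fin us.length → T, c = ∑ i, shift (s i) (us.get i) := by
  induction us generalizing c with
  | nil =>
    simp only [comb, Set.mem_singleton_iff]
    constructor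
    · rintro rfl
      exact ⟨fun _ => 0, by simp⟩
    · rintro ⟨s, rfl⟩
      simp
  | cons u us ih =>
    simp only [comb, Set.mem_ofPred_eq]
    constructor
    · rintro ⟨s0, z, hz, rfl⟩
      obtain ⟨s, rfl⟩ := (ih z).mp hz
      refine ⟨Fin.cons s0 s, ?_⟩
      simp only [List.length_cons]
      rw [Fin.sum_univ_succ]
      simp
    · rintro ⟨s, rfl⟩
      refine ⟨s 0, ∑ i : Fin us.length, shift (s i.succ) (us.get i), (ih _).mpr ⟨_, rfl⟩, ?_⟩
      simp only [List.length_cons]
      rw [Fin.sum_univ_succ]
      simp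

theorem exists_sep [AddGroup.FG T] (S : AddSubgroup T) (y : T) (hy : y ∉ S) :
    ∃ K : AddSubgroup T, S ≤ K ∧ K.FiniteIndex ∧ y ∉ K := by
  obtain ⟨K, -, hK, hC, hyK⟩ := Pool.Agent.H93RF.rf (G := Multiplicative T)
    (fun a b c => by
      have : a * b * a⁻¹ * b⁻¹ = 1 := by
        rw [mul_comm a b]; group
      rw [this]; simp)
    (AddSubgroup.toSubgroup S) (Multiplicative.ofAdd y) (by simpa using hy)
  refine ⟨Subgroup.toAddSubgroup' K, ?_, ?_, ?_⟩
  · intro z hz
    exact hC (show Multiplicative.ofAdd z ∈ AddSubgroup.toSubgroup S from hz)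
  · exact ⟨hK.index_ne_zero⟩
  · exact hyK

/-- the index type: subgroups of finite index over `S`, ordered downwards, and a modulus -/
abbrev J (S : AddSubgroup T) : Type _ := {K : AddSubgroup T // S ≤ K ∧ K.FiniteIndex}ᵒᵈ × ℕ

theorem directed (S : AddSubgroup T) (x y : J S) : ∃ z : J S, x ≤ z ∧ y ≤ z := by
  obtain ⟨⟨K, hK⟩, m⟩ := x
  obtain ⟨⟨L, hL⟩, n⟩ := y
  have := hK.2
  have := hL.2
  refine ⟨(OrderDual.toDual ⟨K ⊓ L, le_inf hK.1 hL.1, inferInstance⟩, max m n), ⟨?_, ?_⟩, ⟨?_, ?_⟩⟩
  · change K ⊓ L ≤ K
    exact inf_le_left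
  · exact le_max_left m n
  · change K ⊓ L ≤ L
    exact inf_le_right
  · exact le_max_right m n

theorem separation [AddGroup.FG T] (S : AddSubgroup T)
    (us : List (T × ι →₀ ℤ)) (v : T × ι →₀ ℤ)
    (h : ∀ K : AddSubgroup T, S ≤ K → K.FiniteIndex → ∀ m : ℕ, 0 < m →
      ∃ c ∈ comb us, ∀ q, (m : ℤ) ∣ push K (v - c) q) :
    ∃ c ∈ comb us, push S (v - c) = 0 := by
  classical
  have hdir : IsDirectedOrder (J S) := ⟨directed S⟩
  have : Nonempty (J S) := ⟨(OrderDual.toDual ⟨⊤, le_top, inferInstance⟩, 0)⟩
  have key : ∀ x : J S, ∃ s : Fin us.length → T, ∀ q,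
      ((x.2.factorial : ℕ) : ℤ) ∣ push (OrderDual.ofDual x.1).1
        (v - ∑ i, shift (s i) (us.get i)) q := by
    intro x
    obtain ⟨c, hc, hq⟩ := h (OrderDual.ofDual x.1).1 (OrderDual.ofDual x.1).2.1
      (OrderDual.ofDual x.1).2.2 x.2.factorial (Nat.factorial_pos _)
    obtain ⟨s, rfl⟩ := (mem_comb_iff us c).mp hc
    exact ⟨s, hq⟩
  choose s0 hs0 using key
  -- the subgroup
  let Kx : J S → AddSubgroup T := fun x => (OrderDual.ofDual x.1).1
  have hKS : ∀ x, S ≤ Kx x := fun x => (OrderDual.ofDual x.1).2.1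
  -- shifts and functions on `Option`
  let s : J S → Option (Fin us.length) → T := fun x i => i.elim 0 (s0 x)
  let f : Option (Fin us.length) → (T × ι →₀ ℤ) := fun i => i.elim (-v) us.get
  have hshift0 : ∀ g : T × ι →₀ ℤ, shift (0 : T) g = g := by
    intro g
    unfold shift
    simp only [Finsupp.mapDomain.addMonoidHom_apply, zero_add]
    exact Finsupp.mapDomain_id
  have hsum : ∀ x, v - ∑ i, shift (s0 x i) (us.get i) = - ∑ i, shift (s x i) (f i) := by
    intro x
    rw [Fintype.sum_option]
    simp only [s, f, Option.elim]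
    rw [map_neg, hshift0]
    abel
  let U : Ultrafilter (J S) := Ultrafilter.of atTop
  have hU : (U : Filter (J S)) ≤ atTop := Ultrafilter.of_le atTop
  let R : Option (Fin us.length) → Option (Fin us.length) → Prop := fun i j =>
    ∃ t : T, ∀ᶠ x in (U : Filter (J S)), s x i - s x j - t ∈ Kx x
  have hRr : ∀ i, R i i := fun i => ⟨0, Eventually.of_forall fun x => by simp [zero_mem]⟩
  have hRs : ∀ i j, R i j → R j i := by
    rintro i j ⟨t, ht⟩
    refine ⟨-t, ht.mono fun x hx => ?_⟩
    have := (Kx x).neg_mem hx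
    convert this using 1
    abel
  have hRt : ∀ i j k, R i j → R j k → R i k := by
    rintro i j k ⟨t, ht⟩ ⟨t', ht'⟩
    refine ⟨t + t', (ht.and ht').mono fun x hx => ?_⟩
    have := (Kx x).add_mem hx.1 hx.2
    convert this using 1
    abel
  let St : Setoid (Option (Fin us.length)) := ⟨R, hRr, fun {i j} => hRs i j, fun {i j k} => hRt i j k⟩
  let root : Option (Fin us.length) → Option (Fin us.length) := fun i =>
    if R i none then none else (Quotient.out (Quotient.mk St i))
  have hroot : ∀ i, R i (root i) := by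
    intro i
    by_cases hi : R i none
    · simp only [root, if_pos hi]; exact hi
    · simp only [root, if_neg hi]
      have := Quotient.mk_out (s := St) i
      exact hRs _ _ this
  have hroot_eq : ∀ i j, R i j → root i = root j := by
    intro i j hij
    by_cases hi : R i none
    · have hj : R j none := hRt _ _ _ (hRs _ _ hij) hi
      simp only [root, if_pos hi, if_pos hj]
    · have hj : ¬ R j none := fun h => hi (hRt _ _ _ hij h)
      simp only [root, if_neg hi, if_neg hj]
      congr 1
      exact Quotient.sound (s := St) hij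
  have hroot_none : root none = none := by simp only [root, if_pos (hRr none)]
  have htt : ∀ i, ∃ t : T, (∀ᶠ x in (U : Filter (J S)), s x i - s x (root i) - t ∈ Kx x) ∧
      (i = none → t = 0) := by
    intro i
    by_cases hi : i = none
    · subst hi
      refine ⟨0, ?_, fun _ => rfl⟩
      rw [hroot_none]
      exact Eventually.of_forall fun x => by simp [zero_mem]
    · obtain ⟨t, ht⟩ := hroot i
      exact ⟨t, ht, fun h => absurd h hi⟩
  choose t ht ht0 using htt
  refine ⟨∑ i, shift (t (some i)) (us.get i), (mem_comb_iff us _).mpr ⟨_, rfl⟩, ?_⟩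
  have hsum' : v - ∑ i, shift (t (some i)) (us.get i) = - ∑ i, shift (t i) (f i) := by
    rw [Fintype.sum_option]
    simp only [f, Option.elim]
    rw [ht0 none rfl, map_neg, hshift0]
    abel
  rw [hsum', map_neg, neg_eq_zero, map_sum]
  ext ⟨q, j⟩
  obtain ⟨e, rfl⟩ := QuotientAddGroup.mk_surjective q
  rw [Finsupp.finsetSum_apply, Finsupp.zero_apply]
  simp only [push_shift_apply]
  -- split along the roots
  rw [← Finset.sum_fiberwise_of_maps_to (s := Finset.univ) (t := Finset.univ) (g := root)
    (fun _ _ => Finset.mem_univ _)]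
  apply Finset.sum_eq_zero
  intro ρ _
  -- the class of `ρ`
  by_cases hρ : ∃ i, root i = ρ
  swap
  · apply Finset.sum_eq_zero
    intro i hi
    exact absurd ⟨i, (Finset.mem_filter.mp hi).2⟩ hρ
  obtain ⟨i0, hi0⟩ := hρ
  have hρρ : root ρ = ρ := by
    rw [← hi0]
    exact (hroot_eq _ _ (hroot i0)).symm
  -- coefficients
  have hcoef : ∀ i, ∀ᶠ x in (U : Filter (J S)),
      cf (Kx x) (s x i) (f i) (s x ρ + e) j = if root i = ρ then cf S (t i) (f i) e j else 0 := by
    intro i
    by_cases hi : root i = ρ
    · rw [if_pos hi]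
      have h1 : ∀ w ∈ (f i).support, ∀ᶠ x in (U : Filter (J S)),
          (s x i + w.1 - (s x ρ + e) ∈ Kx x ↔ t i + w.1 - e ∈ S) := by
        intro w _
        have h2 := ht i
        rw [hi] at h2
        by_cases hm : t i + w.1 - e ∈ S
        · refine h2.mono fun x hx => ⟨fun _ => hm, fun _ => ?_⟩
          have := (Kx x).add_mem hx (hKS x hm)
          convert this using 1
          abel
        · obtain ⟨K0, hK0S, hK0f, hK0⟩ := exists_sep S _ hm
          have h3 : ∀ᶠ x in (U : Filter (J S)), Kx x ≤ K0 := by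
            refine Filter.Eventually.filter_mono hU ?_
            rw [Filter.eventually_atTop]
            refine ⟨(OrderDual.toDual ⟨K0, hK0S, hK0f⟩, 0), fun y hy => ?_⟩
            exact hy.1
          refine (h2.and h3).mono fun x hx => ⟨fun hmem => ?_, fun hmem => absurd hmem hm⟩
          exfalso
          apply hK0
          apply hx.2
          have := (Kx x).sub_mem hmem hx.1
          convert this using 1
          abel
      have h4 := (Filter.eventually_all_finset (f i).support).mpr h1
      refine h4.mono fun x hx => ?_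
      unfold cf
      apply Finset.sum_congr rfl
      intro w hw
      have := hx w hw
      simp only [this]
    · rw [if_neg hi]
      have h1 : ∀ w ∈ (f i).support, ∀ᶠ x in (U : Filter (J S)),
          ¬ (s x i + w.1 - (s x ρ + e) ∈ Kx x) := by
        intro w _
        rw [Ultrafilter.eventually_not]
        intro hcon
        apply hi
        rw [← hρρ]
        apply hroot_eq
        refine ⟨e - w.1, hcon.mono fun x hx => ?_⟩
        convert hx using 1
        abel
      have h4 := (Filter.eventually_all_finset (f i).support).mpr h1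
      refine h4.mono fun x hx => ?_
      unfold cf
      apply Finset.sum_eq_zero
      intro w hw
      rw [if_neg]
      exact fun hh => hx w hw hh.1
  have hall := (Filter.eventually_all (ι := Option (Fin us.length))).mpr hcoef
  have hsumeq : ∀ᶠ x in (U : Filter (J S)),
      ((x.2.factorial : ℕ) : ℤ) ∣ ∑ i, (if root i = ρ then cf S (t i) (f i) e j else 0) := by
    refine hall.mono fun x hx => ?_
    have h1 := hs0 x ((QuotientAddGroup.mk (s x ρ + e) : T ⧸ Kx x), j)
    rw [hsum x, map_neg, map_sum, Finsupp.neg_apply, dvd_neg, Finsupp.finsetSum_apply] at h1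
    simp only [push_shift_apply] at h1
    rw [Finset.sum_congr rfl (fun i _ => (hx i))] at h1
    exact h1
  rw [Finset.sum_filter]
  set Z := ∑ i, (if root i = ρ then cf S (t i) (f i) e j else 0) with hZ
  -- large factorial
  have hlarge : ∀ᶠ x in (U : Filter (J S)), Z.natAbs + 1 ≤ x.2 := by
    refine Filter.Eventually.filter_mono hU ?_
    rw [Filter.eventually_atTop]
    refine ⟨(OrderDual.toDual ⟨⊤, le_top, inferInstance⟩, Z.natAbs + 1), fun y hy => hy.2⟩
  obtain ⟨x, hx1, hx2⟩ := (hsumeq.and hlarge).exists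
  by_contra hne
  have h1 : x.2.factorial ≤ Z.natAbs := by
    apply Nat.le_of_dvd (Int.natAbs_pos.mpr hne)
    exact Int.natCast_dvd.mp hx1
  have h2 := Nat.self_le_factorial x.2
  omega

end Pool.Agent.H90Sep
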